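import Mathlib

/-!
# Complete monotonicity of a Le Roy type function outside the condition (C)
-/

open Finset Filter Topology

namespace Pool.Agent.Results.MP_b81f9a_an.NotNecessary

/-- The Le Roy type Mittag-Leffler function `F_{α,β}^{(γ)}` on the real line. -/
noncomputable def leRoy (α β γ : ℝ) (z : ℝ) : ℝ :=
  ∑' n : ℕ, z ^ n / (Real.Gamma (α * n + β)) ^ γ

/-- Complete monotonicity on `(0, ∞)`. -/
def CM (f : ℝ → ℝ) : Prop :=
  ContDiffOn ℝ (⊤ : ℕ∞) f (Set.Ioi 0) ∧ ∀ (k : ℕ) (x : ℝ), 0 < x → 0 ≤ (-1) ^ k * iteratedDeriv k f x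

/-- The condition `(C_{α,β,γ})`. -/
def CondC (α β γ : ℝ) : Prop :=
  ∀ z : ℝ, 0 < z → z < 1 → z + γ * (z ^ (β - α) - z ^ β) ≤ 1

/-! ### the failure of (C) -/

lemma not_condC : ¬ CondC (1 / 4) (8 / 25) 2 := by
  intro h
  have ht : (0 : ℝ) < 47 / 50 := by norm_num
  have h1 := h ((47 / 50 : ℝ) ^ 100) (by positivity) (by norm_num)
  have e1 : ((47 / 50 : ℝ) ^ 100) ^ ((8 / 25 : ℝ) - 1 / 4) = (47 / 50 : ℝ) ^ 7 := by
    rw [← Real.rpow_natCast, ← Real.rpow_mul ht.le, ← Real.rpow_natCast]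
    norm_num
  have e2 : ((47 / 50 : ℝ) ^ 100) ^ (8 / 25 : ℝ) = (47 / 50 : ℝ) ^ 32 := by
    rw [← Real.rpow_natCast, ← Real.rpow_mul ht.le, ← Real.rpow_natCast]
    norm_num
  rw [e1, e2] at h1
  norm_num at h1

/-! ### the elementary factors -/

/-- `n / 4 + 8 / 25` -/
noncomputable def xs (n : ℕ) : ℝ := n / 4 + 8 / 25

/-- the factors -/
noncomputable def R (j n : ℕ) : ℝ :=
  (xs n + j) ^ 2 / (((n : ℝ) / 4 + j + 1 / 4) * ((n : ℝ) / 4 + j + 1 / 2)
    * ((n : ℝ) / 4 + j + 3 / 4) * ((n : ℝ) / 4 + j + 1))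

/-- the weights -/
noncomputable def w (j : ℕ) (y : ℝ) : ℝ :=
  4 * y ^ (4 * j) * ((98 - 1944 * y + 11094 * y ^ 2 - 9248 * y ^ 3) / 1875)

lemma w_nonneg (j : ℕ) {y : ℝ} (h0 : 0 ≤ y) (h1 : y ≤ 1) : 0 ≤ w j y := by
  unfold w
  have e : (98 - 1944 * y + 11094 * y ^ 2 - 9248 * y ^ 3) = (1 - y) * (98 - 1846 * y + 9248 * y ^ 2) := by
    ring
  rw [e]
  have h2 : 0 ≤ 98 - 1846 * y + 9248 * y ^ 2 := by nlinarith [sq_nonneg (y - 923 / 9248)]
  have h3 : 0 ≤ 1 - y := by linarith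
  positivity

lemma R_nonneg (j n : ℕ) : 0 ≤ R j n := by
  unfold R xs
  positivity

lemma R_le (j n : ℕ) : R j n ≤ 4 := by
  unfold R xs
  have hn : (0 : ℝ) ≤ n := Nat.cast_nonneg n
  have hj : (0 : ℝ) ≤ j := Nat.cast_nonneg j
  set s : ℝ := (n : ℝ) / 4 + j with hs
  have hs0 : 0 ≤ s := by positivity
  have e : (n : ℝ) / 4 + 8 / 25 + j = s + 8 / 25 := by rw [hs]; ring
  rw [e, div_le_iff₀ (by positivity)]
  have h1 : (s + 8 / 25) ^ 2 ≤ (s + 1 / 2) * (s + 3 / 4) := by nlinarith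
  have h2 : 1 ≤ 4 * ((s + 1 / 4) * (s + 1)) := by nlinarith
  have h3 : 0 ≤ (s + 1 / 2) * (s + 3 / 4) := by positivity
  nlinarith

lemma R_integral (j n : ℕ) : ∫ y in (0 : ℝ)..1, y ^ n * w j y = R j n := by
  have e : ∀ y : ℝ, y ^ n * w j y = 4 / 1875 * (98 * y ^ (n + 4 * j) - 1944 * y ^ (n + 4 * j + 1)
      + 11094 * y ^ (n + 4 * j + 2) - 9248 * y ^ (n + 4 * j + 3)) := by
    intro y
    unfold w
    ring
  simp only [e]
  rw [intervalIntegral.integral_const_mul, intervalIntegral.integral_sub,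
    intervalIntegral.integral_add, intervalIntegral.integral_sub]
  · simp only [intervalIntegral.integral_const_mul, integral_pow]
    unfold R xs
    push_cast
    have hn : (0 : ℝ) ≤ n := Nat.cast_nonneg n
    have hj : (0 : ℝ) ≤ j := Nat.cast_nonneg j
    have h1 : (n : ℝ) + 4 * j + 1 ≠ 0 := by positivity
    have h2 : (n : ℝ) + 4 * j + 1 + 1 ≠ 0 := by positivity
    have h3 : (n : ℝ) + 4 * j + 2 + 1 ≠ 0 := by positivity
    have h4 : (n : ℝ) + 4 * j + 3 + 1 ≠ 0 := by positivity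
    have h5 : (n : ℝ) / 4 + j + 1 / 4 ≠ 0 := by positivity
    have h6 : (n : ℝ) / 4 + j + 1 / 2 ≠ 0 := by positivity
    have h7 : (n : ℝ) / 4 + j + 3 / 4 ≠ 0 := by positivity
    have h8 : (n : ℝ) / 4 + j + 1 ≠ 0 := by positivity
    simp only [one_pow, ne_eq, Nat.add_eq_zero_iff, one_ne_zero, and_false, not_false_eq_true,
      zero_pow, sub_zero]
    have a1 : (n : ℝ) + 4 * j + 1 = 4 * ((n : ℝ) / 4 + j + 1 / 4) := by ring
    have a2 : (n : ℝ) + 4 * j + 1 + 1 = 4 * ((n : ℝ) / 4 + j + 1 / 2) := by ring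
    have a3 : (n : ℝ) + 4 * j + 2 + 1 = 4 * ((n : ℝ) / 4 + j + 3 / 4) := by ring
    have a4 : (n : ℝ) + 4 * j + 3 + 1 = 4 * ((n : ℝ) / 4 + j + 1) := by ring
    rw [a2, a3, a4, a1]
    set s : ℝ := (n : ℝ) / 4 + j with hs
    have e2 : (n : ℝ) / 4 + 8 / 25 + j = s + 8 / 25 := by rw [hs]; ring
    rw [e2]
    have hs0 : 0 ≤ s := by positivity
    have g1 : 4 * s + 1 ≠ 0 := by positivity
    have g2 : 2 * s + 1 ≠ 0 := by positivity
    have g3 : 4 * s + 3 ≠ 0 := by positivity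
    have g4 : s + 1 ≠ 0 := by positivity
    field_simp
    ring
  all_goals exact Continuous.intervalIntegrable (by fun_prop) _ _

/-! ### positivity for the finite products -/

lemma summable_aux (c : ℝ) {u : ℕ → ℝ} {C ρ : ℝ} (_hρ : 0 ≤ ρ) (hu : ∀ n, |u n| ≤ C * ρ ^ n)
    (k : ℕ) : Summable fun n : ℕ => ‖u (n + k) * (c ^ n / (n.factorial : ℝ))‖ := by
  have hs := (Real.summable_pow_div_factorial (ρ * |c|)).mul_left (C * ρ ^ k)
  refine Summable.of_nonneg_of_le (fun _ => norm_nonneg _) (fun n => ?_) hs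
  rw [norm_mul, Real.norm_eq_abs, Real.norm_eq_abs, abs_div, abs_pow, Nat.abs_cast]
  calc |u (n + k)| * (|c| ^ n / (n.factorial : ℝ))
      ≤ C * ρ ^ (n + k) * (|c| ^ n / (n.factorial : ℝ)) :=
        mul_le_mul_of_nonneg_right (hu _) (by positivity)
    _ = C * ρ ^ k * ((ρ * |c|) ^ n / (n.factorial : ℝ)) := by
        rw [pow_add, mul_pow]; ring

lemma prod_le (L n : ℕ) : |∏ j ∈ range L, R j n| ≤ 4 ^ L := by
  rw [abs_of_nonneg (Finset.prod_nonneg fun j _ => R_nonneg j n)]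
  calc ∏ j ∈ range L, R j n ≤ ∏ _j ∈ range L, (4 : ℝ) :=
        Finset.prod_le_prod (fun j _ => R_nonneg j n) fun j _ => R_le j n
    _ = 4 ^ L := by simp

lemma pos_prod {ρ : ℝ} (hρ : 0 ≤ ρ) : ∀ (L k : ℕ) (x : ℝ), 0 ≤ x →
    0 ≤ ∑' n : ℕ, (ρ ^ (n + k) * ∏ j ∈ range L, R j (n + k)) * ((-x) ^ n / (n.factorial : ℝ)) := by
  intro L
  induction L with
  | zero =>
    intro k x _
    simp only [Finset.range_zero, Finset.prod_empty, mul_one]
    have e : ∀ n : ℕ, ρ ^ (n + k) * ((-x) ^ n / (n.factorial : ℝ))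
        = ρ ^ k * ((-(ρ * x)) ^ n / (n.factorial : ℝ)) := by
      intro n
      have : (-(ρ * x)) ^ n = ρ ^ n * (-x) ^ n := by rw [← mul_pow]; ring
      rw [pow_add, this]
      ring
    simp only [e]
    rw [tsum_mul_left]
    have h1 : ∑' n : ℕ, (-(ρ * x)) ^ n / (n.factorial : ℝ) = Real.exp (-(ρ * x)) := by
      rw [Real.exp_eq_exp_ℝ, NormedSpace.exp_eq_tsum_div]
    rw [h1]
    positivity
  | succ L ih =>
    intro k x hx
    set u : ℕ → ℝ := fun n => ρ ^ n * ∏ j ∈ range L, R j n with hu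
    have hub : ∀ n, |u n| ≤ 4 ^ L * ρ ^ n := by
      intro n
      rw [hu]
      simp only
      rw [abs_mul, abs_of_nonneg (pow_nonneg hρ n), mul_comm]
      exact mul_le_mul_of_nonneg_right (prod_le L n) (pow_nonneg hρ n)
    -- interchange of sum and integral
    have hW : ∃ W : ℝ, ∀ y ∈ Set.Icc (0 : ℝ) 1, ‖w L y‖ ≤ W := by
      have hc : Continuous (w L) := by unfold w; fun_prop
      obtain ⟨W, hW⟩ := (isCompact_Icc (a := (0 : ℝ)) (b := 1)).exists_bound_of_continuousOn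
        hc.continuousOn
      exact ⟨W, hW⟩
    obtain ⟨W, hW⟩ := hW
    have hsum := summable_aux (-x) hρ hub k
    have key : HasSum (fun n : ℕ => ∫ y in (0 : ℝ)..1,
        y ^ k * w L y * (u (n + k) * ((-(x * y)) ^ n / (n.factorial : ℝ))))
        (∫ y in (0 : ℝ)..1, y ^ k * w L y
          * ∑' n : ℕ, u (n + k) * ((-(x * y)) ^ n / (n.factorial : ℝ))) := by
      refine intervalIntegral.hasSum_integral_of_dominated_convergence
        (fun n _ => W * ‖u (n + k) * ((-x) ^ n / (n.factorial : ℝ))‖) (fun n => ?_) (fun n => ?_)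
        ?_ ?_ ?_
      · apply Continuous.aestronglyMeasurable
        unfold w
        fun_prop
      · refine Eventually.of_forall fun y hy => ?_
        rw [Set.uIoc_of_le zero_le_one] at hy
        have hy' : y ∈ Set.Icc (0 : ℝ) 1 := ⟨hy.1.le, hy.2⟩
        have h1 := hW y hy'
        have h2 : ‖y ^ k‖ ≤ 1 := by
          rw [norm_pow, Real.norm_eq_abs, abs_of_pos hy.1]
          exact pow_le_one₀ hy.1.le hy.2
        have h3 : (-(x * y)) ^ n = (-x) ^ n * y ^ n := by rw [← mul_pow]; ring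
        have h4 : ‖y ^ n‖ ≤ 1 := by
          rw [norm_pow, Real.norm_eq_abs, abs_of_pos hy.1]
          exact pow_le_one₀ hy.1.le hy.2
        have e : y ^ k * w L y * (u (n + k) * ((-(x * y)) ^ n / (n.factorial : ℝ)))
            = (y ^ k * y ^ n) * (w L y * (u (n + k) * ((-x) ^ n / (n.factorial : ℝ)))) := by
          rw [h3]; ring
        rw [e, norm_mul, norm_mul, norm_mul (w L y)]
        calc ‖y ^ k‖ * ‖y ^ n‖ * (‖w L y‖ * ‖u (n + k) * ((-x) ^ n / (n.factorial : ℝ))‖)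
            ≤ 1 * 1 * (W * ‖u (n + k) * ((-x) ^ n / (n.factorial : ℝ))‖) := by
              gcongr
          _ = _ := by ring
      · exact Eventually.of_forall fun _ _ => hsum.mul_left W
      · exact intervalIntegrable_const
      · refine Eventually.of_forall fun y hy => ?_
        rw [Set.uIoc_of_le zero_le_one] at hy
        exact ((summable_aux (-(x * y)) hρ hub k).of_norm.hasSum).mul_left _
    have hterm : ∀ n : ℕ, ∫ y in (0 : ℝ)..1,
        y ^ k * w L y * (u (n + k) * ((-(x * y)) ^ n / (n.factorial : ℝ)))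
        = (ρ ^ (n + k) * ∏ j ∈ range (L + 1), R j (n + k)) * ((-x) ^ n / (n.factorial : ℝ)) := by
      intro n
      have e : ∀ y : ℝ, y ^ k * w L y * (u (n + k) * ((-(x * y)) ^ n / (n.factorial : ℝ)))
          = (u (n + k) * ((-x) ^ n / (n.factorial : ℝ))) * (y ^ (n + k) * w L y) := by
        intro y
        have h3 : (-(x * y)) ^ n = (-x) ^ n * y ^ n := by rw [← mul_pow]; ring
        rw [h3, pow_add]
        ring
      simp only [e]
      rw [intervalIntegral.integral_const_mul, R_integral, Finset.prod_range_succ, hu]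
      ring
    simp only [hterm] at key
    rw [key.tsum_eq]
    apply intervalIntegral.integral_nonneg zero_le_one
    intro y hy
    have h1 := w_nonneg L hy.1 hy.2
    have h2 := ih k (x * y) (mul_nonneg hx hy.1)
    have h3 := pow_nonneg hy.1 k
    exact mul_nonneg (mul_nonneg h3 h1) h2

/-! ### Euler's products -/

lemma prod_four (f : ℕ → ℝ) (L : ℕ) : ∏ j ∈ range (4 * L), f j
    = ∏ j ∈ range L, (f (4 * j) * f (4 * j + 1) * f (4 * j + 2) * f (4 * j + 3)) := by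
  induction L with
  | zero => simp
  | succ L ih =>
    have : 4 * (L + 1) = 4 * L + 1 + 1 + 1 + 1 := by ring
    rw [this, Finset.prod_range_succ, Finset.prod_range_succ, Finset.prod_range_succ,
      Finset.prod_range_succ, ih, Finset.prod_range_succ]
    ring

/-- The approximations of `n! / Γ(n/4+8/25)²`. -/
noncomputable def mK (K n : ℕ) : ℝ :=
  Real.GammaSeq ((n : ℝ) + 1) (4 * K + 3) / Real.GammaSeq (xs n) K ^ 2

lemma mK_eq {K : ℕ} (hK : 1 ≤ K) : ∃ c ρ : ℝ, 0 ≤ c ∧ 0 ≤ ρ ∧ ∀ n,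
    mK K n = c * (ρ ^ n * ∏ j ∈ range (K + 1), R j n) := by
  have hK0 : (0 : ℝ) < K := by exact_mod_cast hK
  refine ⟨((4 * K + 3 : ℕ) : ℝ) * ((4 * K + 3).factorial : ℝ) / (4 ^ (4 * (K + 1))
    * ((K : ℝ) ^ (16 / 25 : ℝ) * (K.factorial : ℝ) ^ 2)),
    ((4 * K + 3 : ℕ) : ℝ) / (K : ℝ) ^ (1 / 2 : ℝ), by positivity, by positivity, fun n => ?_⟩
  unfold mK Real.GammaSeq
  have h1 : ∏ j ∈ range (4 * K + 3 + 1), ((n : ℝ) + 1 + j)
      = 4 ^ (4 * (K + 1)) * ∏ j ∈ range (K + 1), (((n : ℝ) / 4 + j + 1 / 4)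
        * ((n : ℝ) / 4 + j + 1 / 2) * ((n : ℝ) / 4 + j + 3 / 4) * ((n : ℝ) / 4 + j + 1)) := by
    have e : 4 * K + 3 + 1 = 4 * (K + 1) := by ring
    rw [e, prod_four]
    have e2 : (4 : ℝ) ^ (4 * (K + 1)) = ∏ _j ∈ range (K + 1), (4 : ℝ) ^ 4 := by
      rw [Finset.prod_const, Finset.card_range, ← pow_mul]
    rw [e2, ← Finset.prod_mul_distrib]
    refine Finset.prod_congr rfl fun j _ => ?_
    push_cast
    ring
  have h2 : (((4 * K + 3 : ℕ) : ℝ)) ^ ((n : ℝ) + 1)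
      = ((4 * K + 3 : ℕ) : ℝ) ^ n * ((4 * K + 3 : ℕ) : ℝ) := by
    have : ((n : ℝ) + 1) = ((n + 1 : ℕ) : ℝ) := by push_cast; ring
    rw [this, Real.rpow_natCast, pow_succ]
  have h3 : ((K : ℝ) ^ xs n) ^ 2 = ((K : ℝ) ^ (1 / 2 : ℝ)) ^ n * (K : ℝ) ^ (16 / 25 : ℝ) := by
    rw [← Real.rpow_natCast, ← Real.rpow_mul hK0.le, ← Real.rpow_natCast, ← Real.rpow_mul hK0.le,
      ← Real.rpow_add hK0]
    congr 1
    unfold xs
    push_cast
    ring
  rw [h1, h2]
  have hR : ∏ j ∈ range (K + 1), R j n = (∏ j ∈ range (K + 1), (xs n + j)) ^ 2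
      / ∏ j ∈ range (K + 1), (((n : ℝ) / 4 + j + 1 / 4) * ((n : ℝ) / 4 + j + 1 / 2)
        * ((n : ℝ) / 4 + j + 3 / 4) * ((n : ℝ) / 4 + j + 1)) := by
    rw [← Finset.prod_pow, ← Finset.prod_div_distrib]
    rfl
  rw [hR, div_pow, mul_pow, h3]
  have p1 : (∏ j ∈ range (K + 1), (xs n + j)) ≠ 0 := by
    apply Finset.prod_ne_zero_iff.mpr
    intro j _
    unfold xs
    positivity
  have p2 : (∏ j ∈ range (K + 1), (((n : ℝ) / 4 + j + 1 / 4) * ((n : ℝ) / 4 + j + 1 / 2)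
        * ((n : ℝ) / 4 + j + 3 / 4) * ((n : ℝ) / 4 + j + 1))) ≠ 0 := by
    apply Finset.prod_ne_zero_iff.mpr
    intro j _
    positivity
  have p3 : ((K : ℝ) ^ (1 / 2 : ℝ)) ≠ 0 := by positivity
  have p4 : ((K : ℝ) ^ (16 / 25 : ℝ)) ≠ 0 := by positivity
  have p5 : (K.factorial : ℝ) ≠ 0 := by positivity
  rw [div_pow]
  generalize (∏ j ∈ range (K + 1), (xs n + j)) = P1 at p1 ⊢
  generalize (∏ j ∈ range (K + 1), (((n : ℝ) / 4 + j + 1 / 4) * ((n : ℝ) / 4 + j + 1 / 2)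
        * ((n : ℝ) / 4 + j + 3 / 4) * ((n : ℝ) / 4 + j + 1))) = P2 at p2 ⊢
  field_simp

lemma pos_mK {K : ℕ} (hK : 1 ≤ K) (k : ℕ) {x : ℝ} (hx : 0 ≤ x) :
    0 ≤ ∑' n : ℕ, mK K (n + k) * ((-x) ^ n / (n.factorial : ℝ)) := by
  obtain ⟨c, ρ, hc, hρ, h⟩ := mK_eq hK
  simp only [h, mul_assoc c]
  rw [tsum_mul_left]
  exact mul_nonneg hc (pos_prod hρ (K + 1) k x hx)

/-! ### bounds -/

lemma gammaSeq_mono {x : ℝ} (hx : 1 ≤ x) {K : ℕ} (hK : 1 ≤ K) :
    Real.GammaSeq x K ≤ Real.GammaSeq x (K + 1) := by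
  have hK0 : (0 : ℝ) < K := by exact_mod_cast hK
  unfold Real.GammaSeq
  rw [Finset.prod_range_succ _ (K + 1), Nat.factorial_succ]
  have hP : 0 < ∏ j ∈ range (K + 1), (x + j) := Finset.prod_pos fun j _ => by positivity
  have hb := one_add_mul_self_le_rpow_one_add (s := 1 / (K : ℝ)) (by
    have : (0 : ℝ) < 1 / K := by positivity
    linarith) hx
  have h1 : ((K + 1 : ℕ) : ℝ) ^ x = (K : ℝ) ^ x * (1 + 1 / (K : ℝ)) ^ x := by
    rw [← Real.mul_rpow hK0.le (by positivity)]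
    congr 1
    push_cast
    field_simp
  rw [div_le_div_iff₀ hP (by positivity), h1]
  push_cast
  have h2 : x + (K + 1) ≤ (1 + 1 / (K : ℝ)) ^ x * ((K : ℝ) + 1) := by
    have : x + (K + 1) ≤ (1 + x * (1 / (K : ℝ))) * ((K : ℝ) + 1) := by
      have e : (1 + x * (1 / (K : ℝ))) * ((K : ℝ) + 1) = x + (K + 1) + x / K := by
        field_simp
        ring
      rw [e]
      have : 0 ≤ x / K := by positivity
      linarith
    refine this.trans ?_
    gcongr
  have hKx : 0 < (K : ℝ) ^ x := by positivity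
  calc (K : ℝ) ^ x * (K.factorial : ℝ) * ((∏ j ∈ range (K + 1), (x + j)) * (x + (K + 1)))
      = ((K : ℝ) ^ x * (K.factorial : ℝ) * (∏ j ∈ range (K + 1), (x + j))) * (x + (K + 1)) := by
        ring
    _ ≤ ((K : ℝ) ^ x * (K.factorial : ℝ) * (∏ j ∈ range (K + 1), (x + j)))
          * ((1 + 1 / (K : ℝ)) ^ x * ((K : ℝ) + 1)) := by gcongr
    _ = _ := by ring

lemma gammaSeq_mono' {x : ℝ} (hx : 1 ≤ x) {K₀ K : ℕ} (hK : 1 ≤ K₀) (h : K₀ ≤ K) :
    Real.GammaSeq x K₀ ≤ Real.GammaSeq x K := by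
  obtain ⟨d, rfl⟩ := Nat.exists_eq_add_of_le h
  induction d with
  | zero => exact le_rfl
  | succ d ih => exact (ih (by omega)).trans (gammaSeq_mono hx (by omega))

lemma gammaSeq_pos {x : ℝ} (hx : 0 < x) {K : ℕ} (hK : 1 ≤ K) : 0 < Real.GammaSeq x K := by
  have hK0 : (0 : ℝ) < K := by exact_mod_cast hK
  unfold Real.GammaSeq
  have hP : 0 < ∏ j ∈ range (K + 1), (x + j) := Finset.prod_pos fun j _ => by positivity
  positivity

lemma gammaSeq_le (n N : ℕ) : Real.GammaSeq ((n : ℝ) + 1) N ≤ (n.factorial : ℝ) := by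
  unfold Real.GammaSeq
  have h1 : (n.factorial : ℝ) * ∏ j ∈ range (N + 1), ((n : ℝ) + 1 + j)
      = ((n + 1 + N).factorial : ℝ) := by
    induction N with
    | zero =>
      simp only [zero_add, Finset.prod_range_one, Nat.cast_zero, add_zero]
      rw [Nat.factorial_succ]
      push_cast
      ring
    | succ N ih =>
      rw [Finset.prod_range_succ, ← mul_assoc, ih]
      have : n + 1 + (N + 1) = (n + 1 + N) + 1 := by ring
      rw [this, Nat.factorial_succ]
      push_cast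
      ring
  have hP : 0 < ∏ j ∈ range (N + 1), ((n : ℝ) + 1 + j) := Finset.prod_pos fun j _ => by positivity
  rw [div_le_iff₀ hP, h1]
  have h2 : ((n : ℝ) + 1) = ((n + 1 : ℕ) : ℝ) := by push_cast; ring
  rw [h2, Real.rpow_natCast]
  have h3 : N.factorial * (N + 1) ^ (n + 1) ≤ (N + (n + 1)).factorial :=
    Nat.factorial_mul_pow_le_factorial
  have h4 : N ^ (n + 1) * N.factorial ≤ (n + 1 + N).factorial := by
    calc N ^ (n + 1) * N.factorial ≤ (N + 1) ^ (n + 1) * N.factorial := by gcongr; omega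
      _ = N.factorial * (N + 1) ^ (n + 1) := by ring
      _ ≤ (N + (n + 1)).factorial := h3
      _ = (n + 1 + N).factorial := by congr 1; ring
  exact_mod_cast h4

/-- uniform lower bound of exponential type with arbitrary rate -/
lemma gammaSeq_lower {q : ℝ} (hq : 0 < q) : ∃ (C : ℝ) (K₁ : ℕ), 0 < C ∧ 1 ≤ K₁ ∧
    ∀ K ≥ K₁, ∀ n : ℕ, 1 / Real.GammaSeq (xs n) K ^ 2 ≤ C * q ^ n := by
  -- choose `K₀` with `K₀ ^ (1/2) > 1 / q`
  obtain ⟨K₀, hK₀⟩ := exists_nat_gt (max 1 ((2 / q) ^ 4))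
  have hK₀1 : (1 : ℝ) < K₀ := (le_max_left _ _).trans_lt hK₀
  have hK₀q : (2 / q) ^ 4 < K₀ := (le_max_right _ _).trans_lt hK₀
  have hK₀n : 1 ≤ K₀ := by
    have : (1 : ℝ) ≤ K₀ := hK₀1.le
    exact_mod_cast this
  set p : ℕ := K₀ + 1 with hp
  -- polynomial against exponential
  have hr : |(1 / 2 : ℝ)| < 1 := by rw [abs_of_pos] <;> norm_num
  have hlim := tendsto_pow_const_mul_const_pow_of_abs_lt_one (2 * p) hr
  obtain ⟨B, hB⟩ := hlim.bddAbove_range
  have hB' : ∀ n : ℕ, (n : ℝ) ^ (2 * p) * (1 / 2 : ℝ) ^ n ≤ B := fun n => hB ⟨n, rfl⟩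
  have hB0 : 0 ≤ B := by
    have := hB' 0
    have h0 : (0 : ℝ) ≤ ((0 : ℕ) : ℝ) ^ (2 * p) * (1 / 2 : ℝ) ^ 0 := by positivity
    exact h0.trans this
  -- for `n ≥ 3`
  have hbig : ∀ K ≥ K₀, ∀ n : ℕ, 3 ≤ n → 1 / Real.GammaSeq (xs n) K ^ 2
      ≤ (B * ((K₀ : ℝ) + 1) ^ (2 * p)) * q ^ n := by
    intro K hK n hn
    have hn' : (3 : ℝ) ≤ n := by exact_mod_cast hn
    have hx1 : 1 ≤ xs n := by unfold xs; linarith
    have h1 := gammaSeq_mono' hx1 hK₀n hK
    have h2 : (K₀ : ℝ) ^ xs n / (xs n + K₀) ^ p ≤ Real.GammaSeq (xs n) K₀ := by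
      unfold Real.GammaSeq
      have hP : 0 < ∏ j ∈ range (K₀ + 1), (xs n + j) := Finset.prod_pos fun j _ => by positivity
      have hle : ∏ j ∈ range (K₀ + 1), (xs n + j) ≤ (xs n + K₀) ^ p := by
        calc ∏ j ∈ range (K₀ + 1), (xs n + j) ≤ ∏ _j ∈ range (K₀ + 1), (xs n + K₀) := by
              refine Finset.prod_le_prod (fun j _ => by positivity) fun j hj => ?_
              have : (j : ℝ) ≤ K₀ := by
                have := Nat.lt_succ_iff.mp (Finset.mem_range.mp hj)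
                exact_mod_cast this
              linarith
          _ = (xs n + K₀) ^ p := by simp [hp]
      have hf : (1 : ℝ) ≤ (K₀.factorial : ℝ) := by exact_mod_cast Nat.factorial_pos K₀
      have hKx : 0 < (K₀ : ℝ) ^ xs n := by positivity
      calc (K₀ : ℝ) ^ xs n / (xs n + K₀) ^ p ≤ (K₀ : ℝ) ^ xs n / ∏ j ∈ range (K₀ + 1), (xs n + j) := by
            gcongr
        _ ≤ (K₀ : ℝ) ^ xs n * (K₀.factorial : ℝ) / ∏ j ∈ range (K₀ + 1), (xs n + j) := by
            gcongr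
            exact le_mul_of_one_le_right hKx.le hf
    have h3 : 0 < (K₀ : ℝ) ^ xs n / (xs n + K₀) ^ p := by positivity
    have h4 : 1 / Real.GammaSeq (xs n) K ^ 2 ≤ 1 / ((K₀ : ℝ) ^ xs n / (xs n + K₀) ^ p) ^ 2 := by
      apply one_div_le_one_div_of_le (by positivity)
      exact pow_le_pow_left₀ h3.le (h2.trans h1) 2
    refine h4.trans ?_
    -- `K₀ ^ xs n ≥ (2/q)^n`
    have h5 : (2 / q) ^ n ≤ (K₀ : ℝ) ^ xs n := by
      calc (2 / q) ^ n = ((2 / q) ^ 4) ^ ((n : ℝ) / 4) := by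
            rw [← Real.rpow_natCast, ← Real.rpow_natCast, ← Real.rpow_mul (by positivity)]
            congr 1
            push_cast
            ring
        _ ≤ (K₀ : ℝ) ^ ((n : ℝ) / 4) := Real.rpow_le_rpow (by positivity) hK₀q.le (by positivity)
        _ ≤ (K₀ : ℝ) ^ xs n := Real.rpow_le_rpow_of_exponent_le hK₀1.le (by unfold xs; linarith)
    have h5' : (1 : ℝ) ≤ (K₀ : ℝ) ^ xs n := Real.one_le_rpow hK₀1.le (by linarith)
    have h6 : xs n + K₀ ≤ ((K₀ : ℝ) + 1) * n := by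
      unfold xs
      nlinarith
    -- assemble
    have h7 : 1 / ((K₀ : ℝ) ^ xs n / (xs n + K₀) ^ p) ^ 2
        = (xs n + K₀) ^ (2 * p) / ((K₀ : ℝ) ^ xs n) ^ 2 := by
      rw [div_pow, one_div_div, ← pow_mul, mul_comm p 2]
    rw [h7]
    have h8 : (2 / q) ^ n ≤ ((K₀ : ℝ) ^ xs n) ^ 2 := by nlinarith
    have h9 : (0 : ℝ) < (2 / q) ^ n := by positivity
    calc (xs n + K₀) ^ (2 * p) / ((K₀ : ℝ) ^ xs n) ^ 2
        ≤ (((K₀ : ℝ) + 1) * n) ^ (2 * p) / (2 / q) ^ n := by gcongr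
      _ = ((K₀ : ℝ) + 1) ^ (2 * p) * ((n : ℝ) ^ (2 * p) * (1 / 2 : ℝ) ^ n) * q ^ n := by
          rw [mul_pow, div_pow, div_pow, one_pow]
          field_simp
      _ ≤ ((K₀ : ℝ) + 1) ^ (2 * p) * B * q ^ n := by
          have := hB' n
          gcongr
      _ = _ := by ring
  -- finitely many `n`
  have hsmall : ∀ n : ℕ, ∃ (C : ℝ) (K₁ : ℕ), 0 < C ∧ ∀ K ≥ K₁, 1 / Real.GammaSeq (xs n) K ^ 2 ≤ C := by
    intro n
    have hx : 0 < xs n := by unfold xs; positivity
    have hG := Real.Gamma_pos_of_pos hx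
    have h1 : Tendsto (fun K => 1 / Real.GammaSeq (xs n) K ^ 2) atTop
        (𝓝 (1 / Real.Gamma (xs n) ^ 2)) :=
      (tendsto_const_nhds).div ((Real.GammaSeq_tendsto_Gamma (xs n)).pow 2) (by positivity)
    have h2 := h1.eventually (eventually_lt_nhds (lt_add_one (1 / Real.Gamma (xs n) ^ 2)))
    obtain ⟨K₁, hK₁⟩ := eventually_atTop.mp h2
    exact ⟨1 / Real.Gamma (xs n) ^ 2 + 1, K₁, by positivity, fun K hK => (hK₁ K hK).le⟩
  obtain ⟨C0, L0, hC0, h0⟩ := hsmall 0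
  obtain ⟨C1, L1, hC1, h1⟩ := hsmall 1
  obtain ⟨C2, L2, hC2, h2⟩ := hsmall 2
  refine ⟨B * ((K₀ : ℝ) + 1) ^ (2 * p) + C0 + C1 / q + C2 / q ^ 2,
    max (max K₀ L0) (max L1 L2), by positivity, ?_, ?_⟩
  · exact hK₀n.trans ((le_max_left _ _).trans (le_max_left _ _))
  · intro K hK n
    have k0 : K₀ ≤ K := ((le_max_left K₀ L0).trans (le_max_left _ _)).trans hK
    have k1 : L0 ≤ K := ((le_max_right K₀ L0).trans (le_max_left _ _)).trans hK
    have k2 : L1 ≤ K := ((le_max_left L1 L2).trans (le_max_right _ _)).trans hK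
    have k3 : L2 ≤ K := ((le_max_right L1 L2).trans (le_max_right _ _)).trans hK
    have hA : 0 ≤ B * ((K₀ : ℝ) + 1) ^ (2 * p) := by positivity
    have hq1 : 0 < C1 / q := by positivity
    have hq2 : 0 < C2 / q ^ 2 := by positivity
    rcases Nat.lt_or_ge n 3 with hn | hn
    · interval_cases n
      · rw [pow_zero, mul_one]
        exact (h0 K k1).trans (by linarith)
      · rw [pow_one]
        refine (h1 K k2).trans ?_
        have h5 : 0 ≤ (B * ((K₀ : ℝ) + 1) ^ (2 * p) + C0 + C2 / q ^ 2) * q := by positivity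
        have e : C1 / q * q = C1 := div_mul_cancel₀ C1 hq.ne'
        calc C1 = C1 / q * q := e.symm
          _ ≤ C1 / q * q + (B * ((K₀ : ℝ) + 1) ^ (2 * p) + C0 + C2 / q ^ 2) * q := by linarith
          _ = _ := by ring
      · refine (h2 K k3).trans ?_
        have h5 : 0 ≤ (B * ((K₀ : ℝ) + 1) ^ (2 * p) + C0 + C1 / q) * q ^ 2 := by positivity
        have e : C2 / q ^ 2 * q ^ 2 = C2 := div_mul_cancel₀ C2 (pow_pos hq 2).ne'
        calc C2 = C2 / q ^ 2 * q ^ 2 := e.symm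
          _ ≤ C2 / q ^ 2 * q ^ 2 + (B * ((K₀ : ℝ) + 1) ^ (2 * p) + C0 + C1 / q) * q ^ 2 := by
            linarith
          _ = _ := by ring
    · refine (hbig K k0 n hn).trans ?_
      gcongr
      linarith

/-! ### the limit -/

/-- `n! / Γ(n/4+8/25)²` -/
noncomputable def m (n : ℕ) : ℝ := (n.factorial : ℝ) / Real.Gamma (xs n) ^ 2

lemma m_nonneg (n : ℕ) : 0 ≤ m n := by unfold m; positivity

lemma mK_tendsto (n : ℕ) : Tendsto (fun K => mK K n) atTop (𝓝 (m n)) := by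
  have hx : 0 < xs n := by unfold xs; positivity
  have hG := Real.Gamma_pos_of_pos hx
  unfold mK m
  have h1 : Tendsto (fun K : ℕ => Real.GammaSeq ((n : ℝ) + 1) (4 * K + 3)) atTop
      (𝓝 (n.factorial : ℝ)) := by
    have h2 := Real.GammaSeq_tendsto_Gamma ((n : ℝ) + 1)
    rw [Real.Gamma_nat_eq_factorial] at h2
    refine h2.comp ?_
    exact tendsto_atTop_mono (fun K : ℕ => (by simp only [id]; omega : id K ≤ 4 * K + 3)) tendsto_id
  exact h1.div ((Real.GammaSeq_tendsto_Gamma (xs n)).pow 2) (by positivity)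

lemma fact_le (n k : ℕ) : ((n + k).factorial : ℝ) ≤ (k.factorial : ℝ) * 2 ^ (n + k) * (n.factorial : ℝ) := by
  have h1 : (n + k).choose n * n.factorial * k.factorial = (n + k).factorial := by
    have := Nat.choose_mul_factorial_mul_factorial (Nat.le_add_right n k)
    rwa [Nat.add_sub_cancel_left] at this
  have h2 : (n + k).choose n ≤ 2 ^ (n + k) := Nat.choose_le_two_pow _ _
  have h3 : (n + k).factorial ≤ k.factorial * 2 ^ (n + k) * n.factorial := by
    rw [← h1]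
    calc (n + k).choose n * n.factorial * k.factorial
        ≤ 2 ^ (n + k) * n.factorial * k.factorial := by gcongr
      _ = _ := by ring
  exact_mod_cast h3

/-- bound for the approximations, of exponential type with arbitrary small rate -/
lemma mK_bound {q : ℝ} (hq : 0 < q) (k : ℕ) : ∃ (C : ℝ) (K₁ : ℕ), 0 < C ∧ 1 ≤ K₁ ∧
    ∀ K ≥ K₁, ∀ n : ℕ, |mK K (n + k) / (n.factorial : ℝ)| ≤ C * q ^ n := by
  obtain ⟨C, K₁, hC, hK₁, h⟩ := gammaSeq_lower (q := q / 2) (by positivity)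
  refine ⟨C * (k.factorial : ℝ) * q ^ k, K₁, by positivity, hK₁, fun K hK n => ?_⟩
  have h1 := h K hK (n + k)
  have h2 := gammaSeq_le (n + k) (4 * K + 3)
  have hx : 0 < xs (n + k) := by unfold xs; positivity
  have h3 : 0 < Real.GammaSeq ((n + k : ℕ) + 1 : ℝ) (4 * K + 3) :=
    gammaSeq_pos (by positivity) (by omega)
  have h4 : 0 < Real.GammaSeq (xs (n + k)) K := gammaSeq_pos hx (hK₁.trans hK)
  have hnf : (0 : ℝ) < (n.factorial : ℝ) := by positivity
  unfold mK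
  rw [abs_of_pos (by positivity)]
  calc Real.GammaSeq ((n + k : ℕ) + 1 : ℝ) (4 * K + 3) / Real.GammaSeq (xs (n + k)) K ^ 2
        / (n.factorial : ℝ)
      = Real.GammaSeq ((n + k : ℕ) + 1 : ℝ) (4 * K + 3) * (1 / Real.GammaSeq (xs (n + k)) K ^ 2)
        / (n.factorial : ℝ) := by ring
    _ ≤ ((k.factorial : ℝ) * 2 ^ (n + k) * (n.factorial : ℝ)) * (C * (q / 2) ^ (n + k))
        / (n.factorial : ℝ) := by
        have := h2.trans (fact_le n k)
        gcongr
    _ = C * (k.factorial : ℝ) * q ^ k * q ^ n := by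
        rw [div_pow]
        field_simp
        ring

lemma m_bound {q : ℝ} (hq : 0 < q) (k : ℕ) : ∃ C : ℝ, 0 < C ∧
    ∀ n : ℕ, |m (n + k) / (n.factorial : ℝ)| ≤ C * q ^ n := by
  obtain ⟨C, K₁, hC, _, h⟩ := mK_bound hq k
  refine ⟨C, hC, fun n => ?_⟩
  have h1 : Tendsto (fun K => |mK K (n + k) / (n.factorial : ℝ)|) atTop
      (𝓝 |m (n + k) / (n.factorial : ℝ)|) := ((mK_tendsto (n + k)).div_const _).abs
  refine le_of_tendsto h1 ?_
  filter_upwards [eventually_ge_atTop K₁] with K hK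
  exact h K hK n

/-- the derivatives, up to sign -/
noncomputable def gk (k : ℕ) (x : ℝ) : ℝ := ∑' n : ℕ, m (n + k) / (n.factorial : ℝ) * (-x) ^ n

lemma gk_nonneg (k : ℕ) {x : ℝ} (hx : 0 ≤ x) : 0 ≤ gk k x := by
  obtain ⟨C, K₁, hC, hK₁, h⟩ := mK_bound (q := 1 / (2 * (x + 1))) (by positivity) k
  have hlim : Tendsto (fun K => ∑' n : ℕ, mK K (n + k) / (n.factorial : ℝ) * (-x) ^ n) atTop
      (𝓝 (gk k x)) := by
    unfold gk
    refine tendsto_tsum_of_dominated_convergence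
      (bound := fun n : ℕ => C * (1 / 2 : ℝ) ^ n) ?_ ?_ ?_
    · exact (summable_geometric_of_lt_one (by norm_num) (by norm_num)).mul_left C
    · exact fun n => ((mK_tendsto (n + k)).div_const _).mul_const _
    · filter_upwards [eventually_ge_atTop K₁] with K hK n
      rw [norm_mul, Real.norm_eq_abs, norm_pow, norm_neg, Real.norm_eq_abs, abs_of_nonneg hx]
      have h1 := h K hK n
      calc |mK K (n + k) / (n.factorial : ℝ)| * x ^ n
          ≤ C * (1 / (2 * (x + 1))) ^ n * (x + 1) ^ n := by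
            gcongr
            linarith
        _ = C * (1 / 2 : ℝ) ^ n := by
            rw [mul_assoc, ← mul_pow]
            congr 2
            field_simp
  refine ge_of_tendsto hlim ?_
  filter_upwards [eventually_ge_atTop K₁] with K hK
  have := pos_mK (hK₁.trans hK) k hx
  refine this.trans_eq ?_
  congr 1
  funext n
  ring

lemma gk_deriv (k : ℕ) (x : ℝ) : HasDerivAt (gk k) (-gk (k + 1) x) x := by
  set r : ℝ := |x| + 1 with hr
  have hr0 : 0 < r := by positivity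
  obtain ⟨C, hC, h⟩ := m_bound (q := 1 / (2 * r)) (by positivity) (k + 1)
  obtain ⟨C', hC', h'⟩ := m_bound (q := 1 / (2 * r)) (by positivity) k
  have hxr : x ∈ Metric.ball (0 : ℝ) r := by
    rw [mem_ball_zero_iff, Real.norm_eq_abs]
    linarith
  -- termwise derivative
  have hterm : ∀ (n : ℕ) (y : ℝ), HasDerivAt (fun y : ℝ => m (n + k) / (n.factorial : ℝ) * (-y) ^ n)
      (m (n + k) / (n.factorial : ℝ) * (n * (-y) ^ (n - 1) * (-1))) y := by
    intro n y
    have h1 := ((hasDerivAt_id y).neg.pow n).const_mul (m (n + k) / (n.factorial : ℝ))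
    exact h1
  have hsumm : Summable fun n : ℕ => 2 * r * (C * (1 / 2 : ℝ) ^ n) :=
    ((summable_geometric_of_lt_one (by norm_num) (by norm_num)).mul_left C).mul_left _
  have hshift : ∀ (n : ℕ) (y : ℝ), m (n + 1 + k) / ((n + 1).factorial : ℝ)
      * (((n + 1 : ℕ) : ℝ) * (-y) ^ (n + 1 - 1) * (-1))
      = -(m (n + (k + 1)) / (n.factorial : ℝ) * (-y) ^ n) := by
    intro n y
    have e : n + 1 + k = n + (k + 1) := by ring
    rw [e, Nat.factorial_succ, Nat.add_sub_cancel]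
    push_cast
    have : ((n : ℝ) + 1) ≠ 0 := by positivity
    field_simp
  have hbound : ∀ (n : ℕ) (y : ℝ), y ∈ Metric.ball (0 : ℝ) r →
      ‖m (n + k) / (n.factorial : ℝ) * (n * (-y) ^ (n - 1) * (-1))‖
        ≤ 2 * r * (C * (1 / 2 : ℝ) ^ n) := by
    intro n y hy
    rw [mem_ball_zero_iff, Real.norm_eq_abs] at hy
    rcases n with _ | n
    · simp only [Nat.cast_zero, zero_mul, mul_zero, norm_zero]
      positivity
    · rw [hshift n y, norm_neg, norm_mul, Real.norm_eq_abs, norm_pow, norm_neg, Real.norm_eq_abs]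
      have h1 := h n
      calc |m (n + (k + 1)) / (n.factorial : ℝ)| * |y| ^ n
          ≤ C * (1 / (2 * r)) ^ n * r ^ n := by gcongr
        _ = C * (1 / 2 : ℝ) ^ n := by
            rw [mul_assoc, ← mul_pow]
            congr 2
            field_simp
        _ ≤ 2 * r * (C * (1 / 2 : ℝ) ^ (n + 1)) := by
            rw [pow_succ]
            have h2 : 1 ≤ r := by rw [hr]; linarith [abs_nonneg x]
            have h3 : 0 < C * (1 / 2 : ℝ) ^ n := by positivity
            nlinarith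
  have h0 : Summable fun n : ℕ => m (n + k) / (n.factorial : ℝ) * (-(0 : ℝ)) ^ n := by
    apply summable_of_ne_finset_zero (s := {0})
    intro n hn
    have : n ≠ 0 := by simpa using hn
    rw [neg_zero, zero_pow this, mul_zero]
  have key := hasDerivAt_tsum_of_isPreconnected hsumm Metric.isOpen_ball
    (convex_ball (0 : ℝ) r).isPreconnected (fun n y _ => hterm n y) hbound
    (Metric.mem_ball_self hr0) h0 hxr
  refine key.congr_deriv ?_
  -- identify the derivative series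
  have hs : Summable fun n : ℕ => m (n + k) / (n.factorial : ℝ) * (n * (-x) ^ (n - 1) * (-1)) :=
    Summable.of_norm_bounded hsumm fun n => hbound n x hxr
  rw [hs.tsum_eq_zero_add]
  simp only [Nat.cast_zero, zero_mul, mul_zero, zero_add]
  have e : ∀ n : ℕ, m (n + 1 + k) / ((n + 1).factorial : ℝ)
      * (((n + 1 : ℕ) : ℝ) * (-x) ^ (n + 1 - 1) * (-1))
      = -(m (n + (k + 1)) / (n.factorial : ℝ) * (-x) ^ n) := fun n => hshift n x
  simp only [e]
  rw [tsum_neg]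
  rfl

lemma leRoy_eq (x : ℝ) : leRoy (1 / 4) (8 / 25) 2 (-x) = gk 0 x := by
  unfold leRoy gk
  congr 1
  funext n
  unfold m xs
  have hf : (n.factorial : ℝ) ≠ 0 := by positivity
  have e : (1 / 4 : ℝ) * n + 8 / 25 = n / 4 + 8 / 25 := by ring
  rw [add_zero, e, Real.rpow_ofNat]
  field_simp

lemma iter (k : ℕ) : iteratedDeriv k (gk 0) = fun x => (-1) ^ k * gk k x := by
  induction k with
  | zero =>
    funext x
    simp
  | succ k ih =>
    rw [iteratedDeriv_succ, ih]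
    funext x
    have h := (gk_deriv k x).const_mul ((-1 : ℝ) ^ k)
    rw [h.deriv, pow_succ]
    ring

lemma cm : CM (fun x => leRoy (1 / 4) (8 / 25) 2 (-x)) := by
  have e : (fun x => leRoy (1 / 4) (8 / 25) 2 (-x)) = gk 0 := funext leRoy_eq
  rw [e]
  constructor
  · apply ContDiff.contDiffOn
    apply contDiff_of_differentiable_iteratedDeriv
    intro k _
    rw [iter]
    exact fun x => ((gk_deriv k x).const_mul ((-1 : ℝ) ^ k)).differentiableAt
  · intro k x hx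
    rw [iter]
    simp only
    rw [← mul_assoc, ← mul_pow]
    norm_num
    exact gk_nonneg k hx.le

/-- Q1 is false: there are `α, β, γ > 0` for which `x ↦ F(-x)` is completely monotone on `(0, ∞)`
although the condition (C) fails. -/
theorem result : ∃ α β γ : ℝ, 0 < α ∧ 0 < β ∧ 0 < γ ∧ CM (fun x => leRoy α β γ (-x)) ∧
    ¬ CondC α β γ :=
  ⟨1 / 4, 8 / 25, 2, by norm_num, by norm_num, by norm_num, cm, not_condC⟩

end Pool.Agent.Results.MP_b81f9a_an.NotNecessary
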